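import Pool.Agent.R942.WS.Defs

/-!
# Smooth proper varieties over a local field and their semistable alterations: definitions

`K` is a complete discretely valued field of characteristic zero with finite residue field `k` with
`q` elements, `W` is its Weil group and `deg : W → ℤ` is the homomorphism with `deg g = n` if `g` acts
on the algebraic closure of `k` as the `n`-th power of the geometric Frobenius. The inertia group is
the kernel of `deg`. The coefficient field `Ω` is an algebraic closure of `ℚ_ℓ`.
-/

set_option autoImplicit false

namespace Pool.Agent.R942.WD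

open Module Pool.Agent.Y143 Pool.Agent.R942.WS

universe u v

section Space

variable {Ω : Type u} [Field Ω] {V V' : Type v} [AddCommGroup V] [Module Ω V] [AddCommGroup V']
  [Module Ω V'] {W : Type}

/-- `N` is nilpotent and it is a map `N : V → V(-1)` of representations of the Weil group. -/
def IsMonodromyOperator (q : ℕ) (deg : W → Multiplicative ℤ) (act : W → Module.End Ω V)
    (N : Module.End Ω V) : Prop :=
  (∃ r, N ^ r = 0) ∧
    ∀ g x, N (act g x) = (q : Ω) ^ (Multiplicative.toAdd (deg g)) • act g (N x)

/-- `T = exp (t N)` for some `t`. -/
def IsExp (N T : Module.End Ω V) : Prop :=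
  ∃ (t : Ω) (r : ℕ), N ^ r = 0 ∧
    T = ∑ i ∈ Finset.range r, (t ^ i * ((i.factorial : ℕ) : Ω)⁻¹) • N ^ i

/-- `V` (with a Frobenius operator `F` and a monodromy operator `N`) is a direct summand of `V'`
(with `F'` and `N'`) by means of the maps `pull` and `push`, where `push (pull x) = x`. They commute
with the Frobenius operators, and with the monodromy operators up to the factor `e > 0` (the
ramification index). -/
structure IsSummand (e : ℕ) (F N : Module.End Ω V) (F' N' : Module.End Ω V') (pull : V →ₗ[Ω] V')
    (push : V' →ₗ[Ω] V) : Prop where
  e_pos : 0 < e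
  push_pull : ∀ x, push (pull x) = x
  frob_pull : ∀ x, F' (pull x) = pull (F x)
  frob_push : ∀ y, F (push y) = push (F' y)
  N_pull : ∀ x, N' (pull x) = (e : Ω) • pull (N x)
  push_N : ∀ y, push (N' y) = (e : Ω) • N (push y)

/-- Every eigenvalue of every `g` in the Weil group on the graded piece `gr_s` of the monodromy
filtration of `N` is an algebraic number all of whose complex conjugates have absolute value
`q ^ ((m + s) deg(g) / 2)`. -/
def HasRightWeights [CharZero Ω] (q : ℕ) (deg : W → Multiplicative ℤ) (act : W → Module.End Ω V)
    (N : Module.End Ω V) (m s : ℤ) : Prop :=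
  ∀ M : ℤ → Submodule Ω V, IsMonodromyFiltration N M →
    ∀ (g : W) (α : Ω) (x : V), x ∈ M s → x ∉ M (s - 1) → act g x - α • x ∈ M (s - 1) →
      IsWeilNumber q ((m + s) * Multiplicative.toAdd (deg g)) α

end Space

/-- The data given by the cohomology groups `V m = H^m(X_{\bar K}, Ω)` of a variety `X` over `K`:
representations `act` of the Weil group, and the monodromy operators `N`. -/
structure CohomologyData (Ω : Type u) [Field Ω] (W : Type) [Group W] where
  V : ℕ → Type v
  [addCommGroup : ∀ m, AddCommGroup (V m)]
  [module : ∀ m, Module Ω (V m)]
  act : ∀ m, W →* Module.End Ω (V m)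
  N : ∀ m, Module.End Ω (V m)

attribute [instance] CohomologyData.addCommGroup CohomologyData.module

/-- A smooth proper variety `X` over `K`, purely of dimension `n`, given by its cohomology groups
`V m = H^m(X_{\bar K}, Ω)` as representations of the Weil group with monodromy operators. -/
structure ProperVariety (Ω : Type u) [Field Ω] (W : Type) [Group W]
    (deg : W →* Multiplicative ℤ) (n q : ℕ) extends CohomologyData.{u, v} Ω W where
  monodromy : ∀ m, IsMonodromyOperator q deg (act m) (N m)

/-- The subgroup `W'` of finite index is the Weil group of a finite extension `K'` of `K` with residue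
degree `f`, and `φ ∈ W'` is a lift of the geometric Frobenius of the residue field of `K'`. -/
structure IsExtension {W : Type} [Group W] (deg : W →* Multiplicative ℤ) (W' : Subgroup W)
    (f : ℕ) (φ : W) : Prop where
  finite : W'.FiniteIndex
  pos : 0 < f
  mem : φ ∈ W'
  deg_frob : Multiplicative.toAdd (deg φ) = f
  dvd : ∀ g ∈ W', (f : ℤ) ∣ Multiplicative.toAdd (deg g)

/-- The cohomology groups of the generic fibre of a semistable model, given as modules. -/
abbrev modelV {Ω : Type u} [Field Ω] [CharZero Ω] {Γ : Type} {n q : ℕ}
    (Y : Degeneration.{u, v} Ω Γ n q) (m : ℕ) : Type v := Y.V m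

/-- The Frobenius operator on the cohomology of the generic fibre of a semistable model. -/
def modelF {Ω : Type u} [Field Ω] [CharZero Ω] {Γ : Type} {n q : ℕ}
    (Y : Degeneration.{u, v} Ω Γ n q) (m : ℕ) : Module.End Ω (modelV Y m) := Y.actV m Y.frob

/-- The monodromy operator on the cohomology of the generic fibre of a semistable model. -/
def modelN {Ω : Type u} [Field Ω] [CharZero Ω] {Γ : Type} {n q : ℕ}
    (Y : Degeneration.{u, v} Ω Γ n q) (m : ℕ) : Module.End Ω (modelV Y m) := Y.N m

/-- The cohomology group `H` (with a Frobenius operator `F` and a monodromy operator `N`) is a direct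
summand of `H^m` of the generic fibre of the semistable model `Y`, with ramification index `e`. -/
def IsSummandOf {Ω : Type u} [Field Ω] [CharZero Ω] {H : Type v} [AddCommGroup H] [Module Ω H]
    (F N : Module.End Ω H) {Γ : Type} {n q : ℕ} (Y : Degeneration.{u, v} Ω Γ n q) (m e : ℕ) :
    Prop :=
  ∃ (pull : H →ₗ[Ω] modelV Y m) (push : modelV Y m →ₗ[Ω] H),
    IsSummand e F N (modelF Y m) (modelN Y m) pull push

/-- An alteration `X' → X` with a projective strictly semistable model of `X'` over the ring of
integers of a finite extension `K'` of `K`: the model `model` of `X'` (with the classes of divisors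
on the strata); the cohomology groups of `X` are direct summands of those of `X'` (by the pull-back
and the push-forward divided by the degree), and the inertia group of `K'` acts on them through
exponentials of multiples of the monodromy operator. -/
structure Alteration {Ω : Type u} [Field Ω] [CharZero Ω] {W : Type} [Group W]
    {deg : W →* Multiplicative ℤ} {n q : ℕ} (X : ProperVariety.{u, v} Ω W deg n q) where
  W' : Subgroup W
  f : ℕ
  φ : W
  extension : IsExtension deg W' f φ
  Γ : Type
  model : Degeneration.{u, v} Ω Γ n (q ^ f)
  classes : DivisorClasses model.toSpecialFibre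
  e : ℕ
  summand : ∀ m, IsSummandOf (X.act m φ) (X.N m) model m e
  unipotent : ∀ m, ∀ τ ∈ W', deg τ = 1 → IsExp (X.N m) (X.act m τ)

/-- The conclusion of the monodromy-weight conjecture for the graded piece `gr^N_s H^m`. -/
def RightWeights {Ω : Type u} [Field Ω] [CharZero Ω] {W : Type} [Group W]
    {deg : W →* Multiplicative ℤ} {n q : ℕ} (X : ProperVariety.{u, v} Ω W deg n q) (m : ℕ)
    (s : ℤ) : Prop := HasRightWeights q deg (X.act m) (X.N m) m s

end Pool.Agent.R942.WD
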