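import Pool.Agent.R942.WD.Defs
import Pool.Agent.R942.WS.Final
import Pool.Agent.Y143.Mon
import Pool.Agent.Y143.WeilNum

/-!
# From the semistable alteration to the variety
-/

set_option autoImplicit false

namespace Pool.Agent.R942.WD

open Module Polynomial Pool.Agent.Y143 Pool.Agent.R942.WS Pool.Agent.R942.WM

universe u v

section Linear

variable {Ω : Type u} [Field Ω] {V : Type v} [AddCommGroup V] [Module Ω V]

/-- An eigenvector modulo `B` from an annihilating polynomial. -/
lemma exists_step [IsAlgClosed Ω] (A : Module.End Ω V) {M B : Submodule Ω V}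
    (hM : ∀ x ∈ M, A x ∈ M) : ∀ (d : ℕ) (p : Polynomial Ω), p.natDegree = d → p ≠ 0 → ∀ x ∈ M, x ∉ B →
      (aeval A p) x ∈ B → ∃ μ, p.IsRoot μ ∧ ∃ y ∈ M, y ∉ B ∧ A y - μ • y ∈ B := by
  intro d
  induction d with
  | zero =>
    intro p hp hp0 x hx hxB h
    exfalso
    rw [Polynomial.eq_C_of_natDegree_eq_zero hp, aeval_C] at h
    have hc : p.coeff 0 ≠ 0 := by
      intro hc
      apply hp0
      rw [Polynomial.eq_C_of_natDegree_eq_zero hp, hc, C_0]
    rw [Module.algebraMap_end_apply] at h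
    exact hxB ((Submodule.smul_mem_iff _ hc).1 h)
  | succ d ih =>
    intro p hp hp0 x hx hxB h
    obtain ⟨μ, hμ⟩ := IsAlgClosed.exists_root p (by
      rw [Polynomial.degree_eq_natDegree hp0, hp]
      exact_mod_cast Nat.succ_ne_zero d)
    obtain ⟨p1, rfl⟩ := dvd_iff_isRoot.2 hμ
    have hp1 : p1 ≠ 0 := right_ne_zero_of_mul hp0
    have hd : p1.natDegree = d := by
      rw [natDegree_mul (X_sub_C_ne_zero μ) hp1, natDegree_X_sub_C] at hp
      omega
    by_cases hB : (aeval A p1) x ∈ B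
    · obtain ⟨μ', hμ', y, hy⟩ := ih p1 hd hp1 x hx hxB hB
      exact ⟨μ', by rw [IsRoot, eval_mul, hμ', mul_zero], y, hy⟩
    · refine ⟨μ, hμ, (aeval A p1) x, ?_, hB, ?_⟩
      · have hst : ∀ q : Polynomial Ω, (aeval A q) x ∈ M := by
          intro q
          induction q using Polynomial.induction_on' with
          | add a b ha hb =>
            rw [map_add, LinearMap.add_apply]
            exact M.add_mem ha hb
          | monomial k a =>
            rw [aeval_monomial, Module.End.mul_apply, Module.algebraMap_end_apply]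
            apply M.smul_mem
            induction k with
            | zero => simpa using hx
            | succ k ihk =>
              rw [pow_succ', Module.End.mul_apply]
              exact hM _ ihk
        exact hst p1
      · rw [map_mul, Module.End.mul_apply, map_sub, aeval_X, aeval_C, LinearMap.sub_apply,
          Module.algebraMap_end_apply] at h
        exact h

end Linear

section Weil

variable {Ω : Type u} [Field Ω] [CharZero Ω] {W : Type} [Group W]
  {deg : W →* Multiplicative ℤ} {n q : ℕ} (X : ProperVariety.{u, v} Ω W deg n q)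

lemma act_mul (m : ℕ) (g h : W) (x : X.V m) : X.act m (g * h) x = X.act m g (X.act m h x) := by
  rw [map_mul, Module.End.mul_apply]

lemma act_one (m : ℕ) (x : X.V m) : X.act m 1 x = x := by
  rw [map_one, Module.End.one_apply]

lemma act_inv (m : ℕ) (g : W) (x : X.V m) : X.act m g⁻¹ (X.act m g x) = x := by
  rw [← act_mul, inv_mul_cancel, act_one]

variable {X}

lemma act_mem {m : ℕ} {M : ℤ → Submodule Ω (X.V m)} (hM : IsMonodromyFiltration (X.N m) M)
    (hq : q ≠ 0) (g : W) {s : ℤ} {x : X.V m} (hx : x ∈ M s) : X.act m g x ∈ M s :=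
  IsMonodromyFiltrationOn.functorial hM.on hM.on (X.act m g) (fun _ _ => Submodule.mem_top)
    (c := (q : Ω) ^ (Multiplicative.toAdd (deg g))) (zpow_ne_zero _ (Nat.cast_ne_zero.2 hq))
    (fun x _ => (X.monodromy m).2 g x) s hx

lemma exp_mem {m : ℕ} {M : ℤ → Submodule Ω (X.V m)} (hM : IsMonodromyFiltration (X.N m) M)
    {τ : W} (hτ : IsExp (X.N m) (X.act m τ)) {s : ℤ} {x : X.V m} (hx : x ∈ M s) :
    X.act m τ x - x ∈ M (s - 1) := by
  obtain ⟨t, r, hr, h⟩ := hτ
  rcases Nat.eq_zero_or_pos r with rfl | hr0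
  · rw [pow_zero] at hr
    have h0 : ∀ y : X.V m, y = 0 := fun y => by
      have := LinearMap.congr_fun hr y
      simpa using this
    rw [h0 (X.act m τ x - x)]
    exact Submodule.zero_mem _
  · obtain ⟨r, rfl⟩ : ∃ k, r = k + 1 := ⟨r - 1, by omega⟩
    rw [h, LinearMap.sum_apply, Finset.sum_range_succ']
    have h1 : (((t ^ 0 * ((Nat.factorial 0 : ℕ) : Ω)⁻¹) • X.N m ^ 0 : Module.End Ω (X.V m)) x)
        = x := by simp
    rw [h1, add_sub_cancel_right]
    apply Submodule.sum_mem
    intro i _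
    rw [LinearMap.smul_apply]
    apply Submodule.smul_mem
    exact hM.mono (by push_cast; omega) (hM.on.pow_map (i + 1) s x hx)

lemma pow_act {m : ℕ} {M : ℤ → Submodule Ω (X.V m)} (hM : IsMonodromyFiltration (X.N m) M)
    (hq : q ≠ 0) {g : W} {α : Ω} {s : ℤ} {x : X.V m}
    (h : X.act m g x - α • x ∈ M (s - 1)) (k : ℕ) :
    X.act m (g ^ k) x - α ^ k • x ∈ M (s - 1) := by
  induction k with
  | zero => simp
  | succ k ih =>
    have h1 := act_mem hM hq g ih
    rw [map_sub, map_smul, ← act_mul, ← pow_succ'] at h1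
    have h2 := Submodule.smul_mem _ (α ^ k) h
    have h3 := Submodule.add_mem _ h1 h2
    rw [smul_sub, smul_smul, ← pow_succ, sub_add_sub_cancel] at h3
    exact h3

end Weil

lemma ne_zero_of_pow {q f : ℕ} (hf : 0 < f) (h : q ^ f ≠ 0) : q ≠ 0 := by
  rintro rfl
  exact h (zero_pow hf.ne')

section Model

variable {Ω : Type u} [Field Ω] [CharZero Ω] {Γ : Type} {n q : ℕ}

lemma N_nilpotent (X : SemistableModel.{u, v} Ω Γ n q) (m : ℕ) : ∃ r : ℕ, X.N m ^ r = 0 := by
  obtain ⟨a, ha⟩ := X.W_top m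
  obtain ⟨b, hb⟩ := X.W_bot m
  refine ⟨(a - b).toNat, ?_⟩
  ext v
  have hv : v ∈ X.W m a := by rw [ha]; exact Submodule.mem_top
  have h1 := N_pow_W X hv (a - b).toNat
  have h2 : (X.N m ^ (a - b).toNat) v ∈ X.W m b := X.W_mono m (by
    have := Int.self_le_toNat (a - b)
    have h3 : (0 : ℤ) ≤ ((a - b).toNat : ℤ) := Int.natCast_nonneg _
    omega) h1
  rw [hb, Submodule.mem_bot] at h2
  rw [h2]
  rfl

end Model

section Main

variable {Ω : Type u} [Field Ω] [CharZero Ω] [IsAlgClosed Ω] {W : Type} [Group W]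
  {deg : W →* Multiplicative ℤ} {n q : ℕ} {X : ProperVariety.{u, v} Ω W deg n q}

omit [IsAlgClosed Ω] in
lemma q_ne' (A : Alteration X) : q ≠ 0 :=
  ne_zero_of_pow A.extension.pos A.model.q_ne

/-- The eigenvalues of the Frobenius lift `φ` on the graded pieces. -/
lemma frob_weil (A : Alteration X) {m r : ℕ} (hP : PureBeyond A.model.toSemistableModel m r)
    {M : ℤ → Submodule Ω (X.V m)} (hM : IsMonodromyFiltration (X.N m) M) {s : ℤ}
    (hs : (r : ℤ) ≤ |s|) {μ : Ω} {y : X.V m} (hy : y ∈ M s) (hy' : y ∉ M (s - 1))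
    (hμ : X.act m A.φ y - μ • y ∈ M (s - 1)) : IsWeilNumber (q ^ A.f) ((m : ℤ) + s) μ := by
  have hM' := isMonodromyFiltration_monFil (N_nilpotent A.model.toSemistableModel m)
  obtain ⟨pull, push, hS⟩ := A.summand m
  have he : (A.e : Ω) ≠ 0 := Nat.cast_ne_zero.2 hS.e_pos.ne'
  have hpp : ∀ x, push (pull x) = x := hS.push_pull
  have hF : ∀ x, A.model.actV m A.model.frob (pull x) = pull (X.act m A.φ x) := hS.frob_pull
  have hN1 : ∀ x, A.model.N m (pull x) = (A.e : Ω) • pull (X.N m x) := hS.N_pull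
  have hN2 : ∀ x, push (A.model.N m x) = (A.e : Ω) • X.N m (push x) := hS.push_N
  have hpull : ∀ (s : ℤ) (x : X.V m), x ∈ M s → pull x ∈ monFil (A.model.N m) s :=
    fun s x hx => IsMonodromyFiltrationOn.functorial hM.on hM'.on pull
      (fun _ _ => Submodule.mem_top) he (fun x _ => hN1 x) s hx
  have hpush : ∀ (s : ℤ) (x : A.model.V m), x ∈ monFil (A.model.N m) s → push x ∈ M s :=
    fun s x hx => IsMonodromyFiltrationOn.functorial hM'.on hM.on push
      (fun _ _ => Submodule.mem_top) (inv_ne_zero he) (fun x _ => by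
        rw [hN2, smul_smul, inv_mul_cancel₀ he, one_smul]) s hx
  have h1 := hP.pure _ hM' s μ (pull y) hs (hpull s y hy)
    (fun h => hy' (by
      have h2 := hpush _ _ h
      rwa [hpp] at h2))
    (by
      have h2 := hpull _ _ hμ
      rw [map_sub, map_smul] at h2
      rw [hF]
      exact h2)
  rwa [add_comm] at h1

lemma weil_nonneg (A : Alteration X) {m r : ℕ}
    (hP : PureBeyond A.model.toSemistableModel m r)
    {M : ℤ → Submodule Ω (X.V m)} (hM : IsMonodromyFiltration (X.N m) M) {s : ℤ}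
    (hs : (r : ℤ) ≤ |s|) {g : W} (hg : 0 ≤ Multiplicative.toAdd (deg g)) {α : Ω} {x : X.V m}
    (hx : x ∈ M s) (hx' : x ∉ M (s - 1)) (hα : X.act m g x - α • x ∈ M (s - 1)) :
    IsWeilNumber q (((m : ℤ) + s) * Multiplicative.toAdd (deg g)) α := by
  have hq := q_ne' A
  have hfin := A.extension.finite
  obtain ⟨a, ha0, -, ha⟩ := Subgroup.exists_pow_mem_of_index_ne_zero hfin.index_ne_zero g
  obtain ⟨b, hb⟩ := A.extension.dvd _ ha
  have hfpos : (0 : ℤ) < A.f := by exact_mod_cast A.extension.pos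
  have hdeg : Multiplicative.toAdd (deg (g ^ a)) = a * Multiplicative.toAdd (deg g) := by
    rw [map_pow, toAdd_pow, nsmul_eq_mul]
  have hb0 : 0 ≤ b := by
    rw [hdeg] at hb
    have h1 : (0 : ℤ) ≤ A.f * b := by
      rw [← hb]
      positivity
    exact nonneg_of_mul_nonneg_right h1 hfpos
  obtain ⟨k, rfl⟩ := Int.eq_ofNat_of_zero_le hb0
  set τ := (A.φ ^ k)⁻¹ * g ^ a with hτ
  have hτW : τ ∈ A.W' := A.W'.mul_mem (A.W'.inv_mem (A.W'.pow_mem A.extension.mem k)) ha
  have hτdeg : deg τ = 1 := by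
    apply Multiplicative.toAdd.injective
    rw [hτ, map_mul, map_inv, map_pow, toAdd_mul, toAdd_inv, toAdd_pow, hb,
      A.extension.deg_frob, nsmul_eq_mul, toAdd_one]
    ring
  have hexp := exp_mem hM (A.unipotent m τ hτW hτdeg) hx
  have hpow := pow_act hM hq hα a
  have hga : g ^ a = A.φ ^ k * τ := by rw [hτ, mul_inv_cancel_left]
  have hφ : X.act m (A.φ ^ k) x - α ^ a • x ∈ M (s - 1) := by
    have h1 := act_mem hM hq (A.φ ^ k) hexp
    rw [map_sub, ← act_mul, ← hga] at h1
    have h2 := Submodule.sub_mem _ hpow h1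
    rwa [show X.act m (g ^ a) x - α ^ a • x - (X.act m (g ^ a) x - X.act m (A.φ ^ k) x) =
      X.act m (A.φ ^ k) x - α ^ a • x by abel] at h2
  apply IsWeilNumber.of_pow ha0
  rcases Nat.eq_zero_or_pos k with hk | hk
  · subst hk
    rw [pow_zero, act_one, show x - α ^ a • x = (1 - α ^ a) • x by rw [sub_smul, one_smul]] at hφ
    have h1 : α ^ a = 1 := by
      by_contra hne
      exact hx' ((Submodule.smul_mem_iff _ (sub_ne_zero.2 (Ne.symm hne))).1 hφ)
    have h2 : (a : ℤ) * (((m : ℤ) + s) * Multiplicative.toAdd (deg g)) = 0 := by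
      rw [hdeg] at hb
      rw [mul_left_comm, hb]
      simp
    rw [h1, h2]
    exact IsWeilNumber.one q
  · have hp : ∀ y, (aeval (X.act m A.φ) (Polynomial.X ^ k - C (α ^ a) : Polynomial Ω)) y =
        X.act m (A.φ ^ k) y - α ^ a • y := by
      intro y
      rw [map_sub, map_pow, aeval_X, aeval_C, LinearMap.sub_apply, Module.algebraMap_end_apply,
        map_pow]
    obtain ⟨μ, hμ, y, hy, hy', hyμ⟩ := exists_step (X.act m A.φ)
      (fun x hx => act_mem hM hq A.φ hx) k (Polynomial.X ^ k - C (α ^ a)) (natDegree_X_pow_sub_C)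
      (X_pow_sub_C_ne_zero hk _) x hx hx' (by rw [hp]; exact hφ)
    have hμ' : μ ^ k = α ^ a := by
      rw [IsRoot, eval_sub, eval_pow, eval_X, eval_C, sub_eq_zero] at hμ
      exact hμ
    have h1 := ((frob_weil A hP hM hs hy hy' hyμ).of_pow_base).pow k
    rw [hμ'] at h1
    have h2 : (a : ℤ) * (((m : ℤ) + s) * Multiplicative.toAdd (deg g)) =
        (k : ℤ) * (A.f * ((m : ℤ) + s)) := by
      rw [hdeg] at hb
      rw [mul_left_comm, hb]
      push_cast
      ring
    rw [h2]
    exact h1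

theorem rightWeights_of (A : Alteration X) {m r : ℕ}
    (hP : PureBeyond A.model.toSemistableModel m r) {s : ℤ} (hs : (r : ℤ) ≤ |s|) :
    RightWeights X m s := by
  intro M hM g α x hx hx' hα
  have hq := q_ne' A
  rcases le_total 0 (Multiplicative.toAdd (deg g)) with h | h
  · exact weil_nonneg A hP hM hs h hx hx' hα
  · have hinv := act_mem hM hq g⁻¹ hα
    rw [map_sub, map_smul, act_inv] at hinv
    have hα0 : α ≠ 0 := by
      rintro rfl
      rw [zero_smul, sub_zero] at hinv
      exact hx' hinv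
    have h1 : X.act m g⁻¹ x - α⁻¹ • x ∈ M (s - 1) := by
      have h2 := Submodule.smul_mem _ (-α⁻¹) hinv
      rwa [smul_sub, smul_smul, neg_mul, inv_mul_cancel₀ hα0, neg_smul, neg_smul, one_smul,
        sub_neg_eq_add, neg_add_eq_sub] at h2
    have h3 : Multiplicative.toAdd (deg g⁻¹) = -Multiplicative.toAdd (deg g) := by
      rw [map_inv, toAdd_inv]
    have h4 := (weil_nonneg A hP hM hs (g := g⁻¹) (by rw [h3]; omega) hx hx' h1).inv
    rw [inv_inv, h3] at h4
    rwa [show -(((m : ℤ) + s) * -Multiplicative.toAdd (deg g)) =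
      ((m : ℤ) + s) * Multiplicative.toAdd (deg g) by ring] at h4

theorem rightWeights (A : Alteration X) {r : ℕ} (hr : GoodUpTo A.classes r) {m : ℕ} (hm : m ≤ n)
    {s : ℤ} (hs : (m : ℤ) - r - 1 ≤ |s|) : RightWeights X m s ∧ RightWeights X (2 * n - m) s := by
  obtain ⟨h1, h2⟩ := pure_beyond A.model A.classes hr hm
  have hs0 := abs_nonneg s
  exact ⟨rightWeights_of A h1 (by omega), rightWeights_of A h2 (by omega)⟩

omit [IsAlgClosed Ω] in
theorem goodUpTo_one {Γ : Type} {Y : SpecialFibre.{u, v} Ω Γ n q} (A : DivisorClasses Y) :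
    GoodUpTo A 1 := fun _ _ _ h1 h2 => absurd h1 (by omega)

end Main

end Pool.Agent.R942.WD
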